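import Mathlib

/-!
# Project OA (MP_20ef18_an): definitions

Neither `𝓛` nor `VMO_A ⊗̂ H¹` is an operator algebra.
-/

set_option autoImplicit false

open Finset

namespace Pool.Agent.Helper41.OA

/-- The norm of the matrix `γ` in the injective tensor product of `ℓ¹` with itself. -/
noncomputable def injNorm (γ : ℕ → ℕ → ℂ) : ENNReal :=
  ⨆ (N : ℕ) (x : ℕ → ℂ) (y : ℕ → ℂ) (_ : ∀ m, ‖x m‖ ≤ 1) (_ : ∀ k, ‖y k‖ ≤ 1),
    ENNReal.ofReal ‖∑ m ∈ range N, ∑ k ∈ range N, γ m k * x m * y k‖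

/-- On the open unit disc `φ` is the sum of the power series with coefficients `a`. -/
def HasTaylor (a : ℕ → ℂ) (φ : ℂ → ℂ) : Prop :=
  ∀ z : ℂ, ‖z‖ < 1 → HasSum (fun n => a n * z ^ n) (φ z)

/-- The norm of `𝓛`; `φ` belongs to `𝓛` iff it is finite. -/
noncomputable def normL (φ : ℂ → ℂ) : ENNReal :=
  ⨅ (γ : ℕ → ℕ → ℂ) (_ : HasTaylor (fun n => ∑ p ∈ antidiagonal n, γ p.1 p.2) φ), injNorm γ

/-- The norm of `VMO_A`: the infimum of the norms of the continuous functions `F` on the circle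
such that the Fourier coefficients of `F` of nonnegative index are the Taylor coefficients of
`f`. -/
noncomputable def normVMO (f : ℂ → ℂ) : ENNReal :=
  ⨅ (F : C(UnitAddCircle, ℂ)) (_ : HasTaylor (fun n => fourierCoeff F n) f), ENNReal.ofReal ‖F‖

/-- The norm of the Hardy space `H¹`, for functions given by a power series on the disc. -/
noncomputable def normH1 (g : ℂ → ℂ) : ENNReal :=
  ⨆ (r : ℝ) (_ : 0 < r) (_ : r < 1),
    ENNReal.ofReal (Real.circleAverage (fun z => ‖g z‖) 0 r)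

/-- The norm of `VMO_A ⊗̂ H¹`: the infimum of `∑ ‖f_m‖ ‖g_m‖` over all representations of `φ` as a
sum of Hadamard products `f_m * g_m`. -/
noncomputable def normVH (φ : ℂ → ℂ) : ENNReal :=
  ⨅ (f : ℕ → ℂ → ℂ) (g : ℕ → ℂ → ℂ) (a : ℕ → ℕ → ℂ) (b : ℕ → ℕ → ℂ) (c : ℕ → ℂ)
    (_ : ∀ m, HasTaylor (a m) (f m)) (_ : ∀ m, HasTaylor (b m) (g m)) (_ : HasTaylor c φ)
    (_ : ∀ n, HasSum (fun m => a m n * b m n) (c n)), ∑' m, normVMO (f m) * normH1 (g m)

/-- The space of the functions `φ` with `N φ < ∞`, with the norm `N` and pointwise multiplication,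
is isomorphic to an algebra of operators on a Hilbert space `H`: `u` is linear on the space,
multiplicative, bounded and bounded below. -/
def IsOperatorAlgebra.{u} (N : (ℂ → ℂ) → ENNReal) : Prop :=
  ∃ (H : Type u) (_ : NormedAddCommGroup H) (_ : InnerProductSpace ℂ H) (_ : CompleteSpace H)
    (u : (ℂ → ℂ) → (H →L[ℂ] H)) (c C : ℝ), 0 < c ∧
    (∀ φ ψ, N φ < ⊤ → N ψ < ⊤ → u (φ + ψ) = u φ + u ψ) ∧
    (∀ (a : ℂ) φ, N φ < ⊤ → u (a • φ) = a • u φ) ∧
    (∀ φ ψ, N φ < ⊤ → N ψ < ⊤ → N (φ * ψ) < ⊤ → u (φ * ψ) = u φ * u ψ) ∧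
    (∀ φ, N φ < ⊤ → c * (N φ).toReal ≤ ‖u φ‖ ∧ ‖u φ‖ ≤ C * (N φ).toReal)

/-- The primitive root of unity `exp (2 π i / D)`. -/
noncomputable def rt (D : ℕ) : ℂ := Complex.exp (2 * Real.pi * Complex.I / D)

/-- The period. -/
def DD (d : ℕ) : ℕ := 2 ^ (d + 2)

/-- The centre of the window `k`. -/
def NN (d k : ℕ) : ℕ := 4 * DD d * 4 ^ k

/-- The sign attached to the bit `a` of `k`. -/
def sgn (k a : ℕ) : ℂ := if k.testBit a then 1 else -1

/-- The sequence `α`. -/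
noncomputable def al (d n : ℕ) : ℂ :=
  ∑ k ∈ range (2 ^ d), ∑ a ∈ range d, if n = NN d k + 2 ^ a then sgn k a / (√(d : ℝ) : ℝ) else 0

/-- The property of `α` that is used: the part of each row of the Hankel matrix up to the diagonal
is in the unit ball of `ℓ²`. -/
def RowSq (α : ℕ → ℂ) : Prop :=
  ∀ i J : ℕ, ∑ j ∈ range J, ‖if j ≤ i then α (i + j) else 0‖ ^ 2 ≤ 1

/-- A choice of a window for every point of the circle. -/
noncomputable def pat (d j : ℕ) : ℕ :=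
  ∑ a ∈ range d, if 0 ≤ (rt (DD d) ^ (j * 2 ^ a)).re then 2 ^ a else 0

/-- The coefficients of the test polynomial. -/
noncomputable def cf (D j i s k : ℕ) : ℂ :=
  rt D ^ (j * i) * rt D ^ (j * k) * (starRingEnd ℂ) (rt D) ^ (j * s) / D ^ 3

/-- The test polynomial. -/
noncomputable def Ph (d : ℕ) : Polynomial ℂ :=
  ∑ j ∈ range (DD d), ∑ i ∈ range (DD d), ∑ s ∈ range (DD d), ∑ k ∈ range (DD d),
    Polynomial.monomial (i + (NN d (pat d j) - s) + k) (cf (DD d) j i s k)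

end Pool.Agent.Helper41.OA
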